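import Pool.Agent.H990R2.Dig.Tail

/-!
The number of representations `n = i + j` with nonzero digits `i`, `j`: an inequality with a potential.
-/

namespace Pool.Agent.H990R2.Dig

open Finset

/-- Indicator of the nonzero digits. -/
noncomputable def nz (b : ℕ) (x : ℝ) (n : ℕ) : ℕ := if dg b x n = 0 then 0 else 1

/-- Number of ordered representations of `n` as a sum of two positions of nonzero digits. -/
noncomputable def rep (b : ℕ) (x : ℝ) (n : ℕ) : ℕ :=
  ∑ i ∈ range (n + 1), nz b x i * nz b x (n - i)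

/-- Exceptional positions. -/
noncomputable def xc (b : ℕ) (x : ℝ) (a m : ℤ) (n : ℕ) : ℕ :=
  (if n = 0 then 1 else 0) + nz b x n + nz b x (n / 2) + (if T b x a m n ≤ 0 then 1 else 0)

/-- The factor: `2` for even bases, `1` for odd ones. -/
def gf (b : ℕ) : ℕ := if Even b then 2 else 1

/-- The potential. -/
noncomputable def V (b : ℕ) (x : ℝ) (a m : ℤ) (n : ℕ) : ℕ :=
  ((T b x a m n).toNat - gf b) / (gf b * (b - 1))

lemma step_reg (g B t t' R r : ℕ) (hg : 1 ≤ g) (hB : 1 ≤ B) (ht : g ≤ t) (ht' : g ≤ t')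
    (hR : (B + 1) * t ≤ t' + R) (hr : R ≤ B ^ 2 * (g * r)) :
    1 + (t - g) / (g * B) ≤ r + (t' - g) / (g * B) := by
  have hgB : 0 < g * B := Nat.mul_pos hg hB
  set k := (t - g) / (g * B) with hk
  have hk1 : k * (g * B) ≤ t - g := Nat.div_mul_le_self _ _
  by_cases hrk : r ≤ k
  · obtain ⟨s, hs⟩ := Nat.exists_eq_add_of_le hrk
    have h1 : (1 + s) * (g * B) ≤ t' - g := by
      have h2 : k * (g * B) + g ≤ t := by omega
      have h3 : (B + 1) * (k * (g * B) + g) ≤ t' + B ^ 2 * (g * r) := by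
        calc (B + 1) * (k * (g * B) + g) ≤ (B + 1) * t := Nat.mul_le_mul_left _ h2
          _ ≤ t' + R := hR
          _ ≤ _ := by omega
      have h4 : (B + 1) * (k * (g * B) + g) = (1 + s) * (g * B) + g + g * B ^ 2 * s + g * B * r
          + B ^ 2 * (g * r) := by
        rw [hs]; ring
      have h5 : (1 + s) * (g * B) + g ≤ t' := by
        have : 0 ≤ g * B ^ 2 * s := Nat.zero_le _
        have : 0 ≤ g * B * r := Nat.zero_le _
        omega
      omega
    have h6 : 1 + s ≤ (t' - g) / (g * B) := (Nat.le_div_iff_mul_le hgB).mpr h1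
    omega
  · have : 0 ≤ (t' - g) / (g * B) := Nat.zero_le _
    omega

lemma step_exc (g B a t t' R r D : ℕ) (hg : 1 ≤ g) (hB : 1 ≤ B)
    (hR : (B + 1) * t ≤ t' + R + a * D) (hD : D ≤ B) (hr : R ≤ B ^ 2 * r) :
    g * (1 + (t - g) / (g * B)) ≤ r + g * ((t' - g) / (g * B)) + g * (a + 3) := by
  have hgB : 0 < g * B := Nat.mul_pos hg hB
  set k := (t - g) / (g * B) with hk
  have hk1 : k * (g * B) ≤ t - g := Nat.div_mul_le_self _ _
  by_cases hka : k ≤ a
  · have : g * (1 + k) ≤ g * (a + 3) := Nat.mul_le_mul_left _ (by omega)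
    omega
  · push Not at hka
    by_cases hrk : g * k ≤ r
    · have : g * (1 + k) = g * k + g := by ring
      have : g ≤ g * (a + 3) := Nat.le_mul_of_pos_right _ (by omega)
      omega
    · push Not at hrk
      obtain ⟨s, hs⟩ := Nat.exists_eq_add_of_lt hka
      obtain ⟨w, hw⟩ := Nat.exists_eq_add_of_lt hrk
      have hkpos : 0 < k := by omega
      have htg : g ≤ t := by
        by_contra h
        push Not at h
        have : t - g = 0 := by omega
        rw [this] at hk
        simp at hk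
        omega
      have h2 : k * (g * B) + g ≤ t := by omega
      have hDa : a * D ≤ a * B := Nat.mul_le_mul_left _ hD
      have h3 : (B + 1) * (k * (g * B) + g) ≤ t' + B ^ 2 * r + a * B := by
        calc (B + 1) * (k * (g * B) + g) ≤ (B + 1) * t := Nat.mul_le_mul_left _ h2
          _ ≤ t' + R + a * D := hR
          _ ≤ _ := by omega
      have h4 : (B + 1) * (k * (g * B) + g)
          = k * (g * B) + g + B ^ 2 * (g * k) + g * B := by ring
      have h5 : B ^ 2 * (g * k) = B ^ 2 * r + B ^ 2 * (w + 1) := by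
        rw [hw]; ring
      have h6 : k * (g * B) = (s + 1) * (g * B) + a * (g * B) := by
        rw [hs]; ring
      have h7 : a * B ≤ a * (g * B) :=
        Nat.mul_le_mul_left _ (Nat.le_mul_of_pos_left _ hg)
      have h8 : (s + 1) * (g * B) ≤ t' - g := by
        have : 0 ≤ B ^ 2 * (w + 1) := Nat.zero_le _
        have : 0 ≤ g * B := Nat.zero_le _
        omega
      have h9 : s + 1 ≤ (t' - g) / (g * B) := (Nat.le_div_iff_mul_le hgB).mpr h8
      have h10 : g * (1 + k) ≤ g * ((t' - g) / (g * B)) + g * (a + 3) := by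
        rw [← Nat.mul_add]
        exact Nat.mul_le_mul_left _ (by omega)
      omega

/-- A symmetric sum without central term is even. -/
lemma even_sym (f : ℕ → ℕ) (n : ℕ) (h : f (n / 2) = 0) :
    2 ∣ ∑ i ∈ range (n + 1), f i * f (n - i) := by
  have h1 : ((∑ i ∈ range (n + 1), f i * f (n - i) : ℕ) : ZMod 2) = 0 := by
    push_cast
    refine Finset.sum_involution (fun i _ => n - i) ?_ ?_ ?_ ?_
    · intro i hi
      have hi' : i ≤ n := by simpa [Nat.lt_succ_iff] using hi
      rw [Nat.sub_sub_self hi', mul_comm ((f (n - i) : ZMod 2))]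
      exact CharTwo.add_self_eq_zero _
    · intro i hi hne heq
      have hi' : i ≤ n := by simpa [Nat.lt_succ_iff] using hi
      have heq' : n - i = i := heq
      have h2 : i = n / 2 := by omega
      apply hne
      rw [heq', h2, h]
      simp
    · intro i hi
      simp only [mem_range]
      omega
    · intro i hi
      have hi' : i ≤ n := by simpa [Nat.lt_succ_iff] using hi
      exact Nat.sub_sub_self hi'
  exact (ZMod.natCast_eq_zero_iff _ 2).mp h1

variable {b : ℕ} {x : ℝ}

lemma dg_le_nz (hb : 2 ≤ b) (n : ℕ) : dg b x n ≤ (b - 1) * nz b x n := by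
  unfold nz
  have := dg_lt (x := x) hb n
  split_ifs with h
  · omega
  · omega

lemma R_le (hb : 2 ≤ b) (n : ℕ) :
    ∑ i ∈ range (n + 1), dg b x i * dg b x (n - i) ≤ (b - 1) ^ 2 * rep b x n := by
  unfold rep
  rw [mul_sum]
  apply sum_le_sum
  intro i _
  calc dg b x i * dg b x (n - i)
      ≤ ((b - 1) * nz b x i) * ((b - 1) * nz b x (n - i)) :=
        Nat.mul_le_mul (dg_le_nz hb i) (dg_le_nz hb (n - i))
    _ = _ := by ring

lemma nz_eq_zero {n : ℕ} : nz b x n = 0 ↔ dg b x n = 0 := by
  unfold nz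
  split_ifs with h
  · simp [h]
  · simp [h]

lemma nz_le_one (n : ℕ) : nz b x n ≤ 1 := by
  unfold nz
  split_ifs <;> omega

/-- The recursion in natural numbers. -/
lemma t_rec (hb : 2 ≤ b) (hx1 : x < 1) (a m : ℤ) (n : ℕ) :
    (b - 1 + 1) * (T b x a m n).toNat
      ≤ (T b x a m (n + 1)).toNat + (∑ i ∈ range (n + 1 + 1), dg b x i * dg b x (n + 1 - i))
      + a.natAbs * dg b x (n + 1) := by
  have h1 := T_succ (b := b) (x := x) hb hx1 a m n
  have hb1 : b - 1 + 1 = b := by omega
  rw [hb1]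
  by_cases h2 : 0 ≤ T b x a m n
  · have h3 : T b x a m (n + 1) ≤ ((T b x a m (n + 1)).toNat : ℤ) := Int.self_le_toNat _
    have h4 : ((T b x a m n).toNat : ℤ) = T b x a m n := Int.toNat_of_nonneg h2
    zify
    rw [Int.toNat_of_nonneg h2]
    have h5 : a * (dg b x (n + 1) : ℤ) ≤ |a| * (dg b x (n + 1) : ℤ) :=
      mul_le_mul_of_nonneg_right (le_abs_self a) (Int.natCast_nonneg _)
    linarith
  · push Not at h2
    have h3 : (T b x a m n).toNat = 0 := Int.toNat_of_nonpos h2.le
    rw [h3, Nat.mul_zero]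
    exact Nat.zero_le _

lemma gf_pos (b : ℕ) : 1 ≤ gf b := by
  unfold gf
  split_ifs <;> omega

/-- A regular tail is at least `gf b`. -/
lemma t_ge (hb : 2 ≤ b) (hx1 : x < 1) (a m : ℤ) (n : ℕ) (h : xc b x a m n = 0) :
    gf b ≤ (T b x a m n).toNat := by
  unfold xc at h
  have h2 : 1 ≤ T b x a m n := by
    by_contra hneg
    have : T b x a m n ≤ 0 := by omega
    rw [if_pos this] at h
    omega
  have h1 : 1 ≤ (T b x a m n).toNat := by omega
  unfold gf
  split_ifs with he
  · -- even base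
    have hn0 : n ≠ 0 := by
      intro h0
      simp [h0] at h
    have hd : dg b x n = 0 := by
      rw [← nz_eq_zero (b := b) (x := x)]
      omega
    have hd2 : dg b x (n / 2) = 0 := by
      rw [← nz_eq_zero (b := b) (x := x)]
      omega
    obtain ⟨k, rfl⟩ := Nat.exists_eq_succ_of_ne_zero hn0
    have h4 := T_succ (b := b) (x := x) hb hx1 a m k
    have h5 := even_sym (dg b x) (k + 1) hd2
    simp only [Nat.succ_eq_add_one] at *
    rw [hd] at h4
    have h6 : (2 : ℤ) ∣ (b : ℤ) * T b x a m k := by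
      apply Dvd.dvd.mul_right
      exact_mod_cast he.two_dvd
    have h7 : (2 : ℤ) ∣ ∑ i ∈ range (k + 2), (dg b x i : ℤ) * (dg b x (k + 1 - i) : ℤ) := by
      have : ((2 : ℕ) : ℤ) ∣ ((∑ i ∈ range (k + 1 + 1), dg b x i * dg b x (k + 1 - i) : ℕ) : ℤ) :=
        Int.natCast_dvd_natCast.mpr h5
      push_cast at this
      exact this
    have h8 : (2 : ℤ) ∣ T b x a m (k + 1) := by
      rw [h4]
      simp only [Nat.cast_zero, mul_zero, sub_zero]
      exact dvd_sub h6 h7
    omega
  · exact h1

/-- The main inequality with a potential. -/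
lemma main_ineq (hb : 2 ≤ b) (hx1 : x < 1) (a m : ℤ) (n : ℕ) :
    gf b * (1 + V b x a m n) ≤ rep b x (n + 1) + gf b * V b x a m (n + 1)
      + gf b * (a.natAbs + 3) * (xc b x a m n + xc b x a m (n + 1)) := by
  have hrec := t_rec (x := x) hb hx1 a m n
  have hR := R_le (x := x) hb (n + 1)
  have hB : 1 ≤ b - 1 := by omega
  have hg := gf_pos b
  unfold V
  by_cases hreg : xc b x a m n + xc b x a m (n + 1) = 0
  · have h1 : xc b x a m n = 0 := by omega
    have h2 : xc b x a m (n + 1) = 0 := by omega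
    have ht := t_ge hb hx1 a m n h1
    have ht' := t_ge hb hx1 a m (n + 1) h2
    have hd : dg b x (n + 1) = 0 := by
      rw [← nz_eq_zero (b := b) (x := x)]
      unfold xc at h2
      omega
    have hd2 : nz b x ((n + 1) / 2) = 0 := by
      unfold xc at h2
      omega
    have hdiv : gf b ∣ rep b x (n + 1) := by
      unfold gf
      split_ifs
      · exact even_sym (nz b x) (n + 1) hd2
      · exact one_dvd _
    obtain ⟨r, hr⟩ := hdiv
    rw [hd, Nat.mul_zero, Nat.add_zero] at hrec
    rw [hr] at hR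
    have h3 := step_reg (gf b) (b - 1) _ _ _ r hg hB ht ht' hrec hR
    rw [hreg, Nat.mul_zero, Nat.add_zero, hr, ← Nat.mul_add]
    exact Nat.mul_le_mul_left _ h3
  · have hD : dg b x (n + 1) ≤ b - 1 := by
      have := dg_lt (x := x) hb (n + 1)
      omega
    have h3 := step_exc (gf b) (b - 1) a.natAbs _ _ _ _ _ hg hB hrec hD hR
    refine le_trans h3 ?_
    apply Nat.add_le_add_left
    exact Nat.le_mul_of_pos_right _ (by omega)

/-- Number of nonzero digits up to `N`. -/
noncomputable def zc (b : ℕ) (x : ℝ) (N : ℕ) : ℕ := ∑ i ∈ range (N + 1), nz b x i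

/-- Number of positions with nonpositive tail. -/
noncomputable def tz (b : ℕ) (x : ℝ) (a m : ℤ) (N : ℕ) : ℕ :=
  ((range (N + 1)).filter (fun n => T b x a m n ≤ 0)).card

lemma zc_mono {n N : ℕ} (h : n ≤ N) : zc b x n ≤ zc b x N := by
  unfold zc
  exact sum_le_sum_of_subset (by intro i hi; simp only [mem_range] at *; omega)

lemma V_le (hb : 2 ≤ b) (hx0 : 0 < x) (hx1 : x < 1) (hx : Irrational x) (a m : ℤ)
    (hroot : x ^ 2 + a * x = m) (n : ℕ) :
    V b x a m n ≤ (b - 1) * zc b x n + a.natAbs + 1 := by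
  have h1 : V b x a m n ≤ (T b x a m n).toNat := by
    unfold V
    exact le_trans (Nat.div_le_self _ _) (Nat.sub_le _ _)
  have h2 := T_le hb hx0 hx1 hx a m hroot n
  have h3 : ∑ i ∈ range (n + 1), dg b x i ≤ (b - 1) * zc b x n := by
    unfold zc
    rw [mul_sum]
    exact sum_le_sum fun i _ => dg_le_nz hb i
  have h4 : (∑ i ∈ range (n + 1), (dg b x i : ℤ)) = ((∑ i ∈ range (n + 1), dg b x i : ℕ) : ℤ) := by
    push_cast
    rfl
  rw [h4, Int.abs_eq_natAbs] at h2
  omega

lemma sum_half (f : ℕ → ℕ) (N : ℕ) :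
    ∑ n ∈ range (N + 1), f (n / 2) ≤ 2 * ∑ k ∈ range (N + 1), f k := by
  have h : ∀ M, ∑ n ∈ range (2 * M), f (n / 2) = 2 * ∑ k ∈ range M, f k := by
    intro M
    induction M with
    | zero => simp
    | succ M ih =>
      rw [Nat.mul_succ, sum_range_succ, sum_range_succ, sum_range_succ, ih]
      have h1 : 2 * M / 2 = M := by omega
      have h2 : (2 * M + 1) / 2 = M := by omega
      rw [h1, h2]
      ring
  rw [← h (N + 1)]
  exact sum_le_sum_of_subset (by intro i hi; simp only [mem_range] at *; omega)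

lemma xc_sum (a m : ℤ) (N : ℕ) :
    ∑ n ∈ range (N + 1), xc b x a m n ≤ 1 + 3 * zc b x N + tz b x a m N := by
  unfold xc
  rw [sum_add_distrib, sum_add_distrib, sum_add_distrib]
  have h1 := sum_half (nz b x) N
  have h2 : ∑ n ∈ range (N + 1), (if n = 0 then 1 else 0) = 1 := by
    rw [sum_ite_eq' (range (N + 1)) 0 (fun _ => 1)]
    simp
  have h3 : ∑ n ∈ range (N + 1), (if T b x a m n ≤ 0 then 1 else 0) = tz b x a m N := by
    unfold tz
    rw [card_filter]
  unfold zc
  omega

end Pool.Agent.H990R2.Dig
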