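import Mathlib

/-!
Moser's trigonometric argument for weights whose convolution dominates an interval on average.
-/

namespace Pool.Agent.H990R2.Dig

open Finset Real

/-- Test functions: values in `[0,2]`, slowly varying. -/
def Test (N : ℕ) (f : ℕ → ℝ) : Prop :=
  ∀ n, 0 ≤ f n ∧ f n ≤ 2 ∧ |f n - f (n + 1)| ≤ 13 / N

/-- The double sum of `f (i + j)`. -/
noncomputable def Q (w : ℕ → ℝ) (N : ℕ) (f : ℕ → ℝ) : ℝ :=
  ∑ i ∈ range (N + 1), ∑ j ∈ range (N + 1), w i * w j * f (i + j)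

lemma sum_cos (θ α : ℝ) (N : ℕ) :
    2 * sin (θ / 2) * ∑ n ∈ range N, cos (((n + 1 : ℕ) : ℝ) * θ - α)
      = sin (N * θ + θ / 2 - α) - sin (θ / 2 - α) := by
  induction N with
  | zero => simp
  | succ N ih =>
    rw [sum_range_succ, mul_add, ih]
    have h1 : sin ((N + 1 : ℕ) * θ + θ / 2 - α) = sin (((N + 1 : ℕ) * θ - α) + θ / 2) := by
      congr 1; ring
    have h2 : sin (N * θ + θ / 2 - α) = sin (((N + 1 : ℕ) * θ - α) - θ / 2) := by
      congr 1; push_cast; ring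
    rw [h1, h2, sin_add, sin_sub]
    ring

lemma Q_cos (w : ℕ → ℝ) (N : ℕ) (ω β : ℝ) :
    Q w N (fun n => cos (ω * n - 2 * β))
      = (∑ i ∈ range (N + 1), w i * cos (ω * i - β)) ^ 2
        - (∑ i ∈ range (N + 1), w i * sin (ω * i - β)) ^ 2 := by
  unfold Q
  rw [sq, sq, sum_mul_sum, sum_mul_sum, ← sum_sub_distrib]
  apply sum_congr rfl
  intro i _
  rw [← sum_sub_distrib]
  apply sum_congr rfl
  intro j _
  have h : cos (ω * ((i + j : ℕ) : ℝ) - 2 * β) = cos ((ω * i - β) + (ω * j - β)) := by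
    congr 1; push_cast; ring
  beta_reduce
  rw [h, cos_add]
  ring

lemma Q_one (w : ℕ → ℝ) (N : ℕ) :
    Q w N (fun _ => 1) = (∑ i ∈ range (N + 1), w i) ^ 2 := by
  unfold Q
  rw [sq, sum_mul_sum]
  simp

lemma Q_add (w : ℕ → ℝ) (N : ℕ) (f h : ℕ → ℝ) :
    Q w N (fun n => f n + h n) = Q w N f + Q w N h := by
  unfold Q
  rw [← sum_add_distrib]
  apply sum_congr rfl
  intro i _
  rw [← sum_add_distrib]
  apply sum_congr rfl
  intro j _
  ring

lemma Q_sub (w : ℕ → ℝ) (N : ℕ) (f h : ℕ → ℝ) :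
    Q w N (fun n => f n - h n) = Q w N f - Q w N h := by
  unfold Q
  rw [← sum_sub_distrib]
  apply sum_congr rfl
  intro i _
  rw [← sum_sub_distrib]
  apply sum_congr rfl
  intro j _
  ring

lemma test_cos (N : ℕ) (hN : 1 ≤ N) (ω α : ℝ) (hω : |ω| ≤ 13 / N) :
    Test N (fun n => 1 - cos (ω * n - α)) := by
  intro n
  refine ⟨by linarith [cos_le_one (ω * n - α)], by linarith [neg_one_le_cos (ω * n - α)], ?_⟩
  have h := abs_cos_sub_cos_le (ω * ((n + 1 : ℕ) : ℝ) - α) (ω * n - α)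
  have h2 : ω * ((n + 1 : ℕ) : ℝ) - α - (ω * n - α) = ω := by push_cast; ring
  rw [h2] at h
  have h3 : (1 - cos (ω * n - α)) - (1 - cos (ω * ((n + 1 : ℕ) : ℝ) - α))
      = cos (ω * ((n + 1 : ℕ) : ℝ) - α) - cos (ω * n - α) := by ring
  simp only
  rw [h3]
  exact h.trans hω

lemma test_cos' (N : ℕ) (hN : 1 ≤ N) (ω α : ℝ) (hω : |ω| ≤ 13 / N) :
    Test N (fun n => 1 + cos (ω * n - α)) := by
  intro n
  refine ⟨by linarith [neg_one_le_cos (ω * n - α)], by linarith [cos_le_one (ω * n - α)], ?_⟩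
  have h := abs_cos_sub_cos_le (ω * n - α) (ω * ((n + 1 : ℕ) : ℝ) - α)
  have h2 : (ω * n - α) - (ω * ((n + 1 : ℕ) : ℝ) - α) = -ω := by push_cast; ring
  rw [h2, abs_neg] at h
  have h3 : (1 + cos (ω * n - α)) - (1 + cos (ω * ((n + 1 : ℕ) : ℝ) - α))
      = cos (ω * n - α) - cos (ω * ((n + 1 : ℕ) : ℝ) - α) := by ring
  simp only
  rw [h3]
  exact h.trans hω

/-- Bound for the Fourier coefficients at full frequencies. -/
lemma fourier_bound (w : ℕ → ℝ) (N : ℕ) (g E : ℝ) (hN : 3 ≤ N)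
    (H : ∀ f : ℕ → ℝ, Test N f → g * ∑ n ∈ range N, f (n + 1) ≤ Q w N f + E)
    (k : ℕ) (hk1 : 1 ≤ k) (hk2 : k ≤ 2) :
    (∑ i ∈ range (N + 1), w i * cos ((2 * π * k / N) * i)) ^ 2
      + (∑ i ∈ range (N + 1), w i * sin ((2 * π * k / N) * i)) ^ 2
      ≤ (∑ i ∈ range (N + 1), w i) ^ 2 - g * N + E := by
  set ω : ℝ := 2 * π * k / N with hω
  set P := ∑ i ∈ range (N + 1), w i * cos (ω * i) with hP
  set R := ∑ i ∈ range (N + 1), w i * sin (ω * i) with hR
  have hNpos : (0 : ℝ) < N := by exact_mod_cast (by omega : 0 < N)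
  have hk1' : (1 : ℝ) ≤ k := by exact_mod_cast hk1
  have hk2' : (k : ℝ) ≤ 2 := by exact_mod_cast hk2
  have hpi := pi_pos
  obtain ⟨ρ, β, hc, hs⟩ : ∃ ρ β : ℝ, ρ * cos β = P ∧ ρ * sin β = R :=
    ⟨‖(⟨P, R⟩ : ℂ)‖, Complex.arg ⟨P, R⟩, Complex.norm_mul_cos_arg _, Complex.norm_mul_sin_arg _⟩
  have htest : Test N (fun n => 1 - cos (ω * n - 2 * β)) := by
    apply test_cos N (by omega)
    rw [abs_of_nonneg (by positivity), hω]
    apply div_le_div_of_nonneg_right _ hNpos.le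
    have := pi_lt_d2
    nlinarith
  have h1 := H _ htest
  rw [Q_sub, Q_one, Q_cos] at h1
  have h2 : ∑ i ∈ range (N + 1), w i * cos (ω * i - β) = ρ := by
    have : ∑ i ∈ range (N + 1), w i * cos (ω * i - β) = P * cos β + R * sin β := by
      rw [hP, hR, sum_mul, sum_mul, ← sum_add_distrib]
      apply sum_congr rfl
      intro i _
      rw [cos_sub]
      ring
    rw [this, ← hc, ← hs]
    have := sin_sq_add_cos_sq β
    linear_combination ρ * this
  have h3 : ∑ i ∈ range (N + 1), w i * sin (ω * i - β) = 0 := by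
    have : ∑ i ∈ range (N + 1), w i * sin (ω * i - β) = R * cos β - P * sin β := by
      rw [hP, hR, sum_mul, sum_mul, ← sum_sub_distrib]
      apply sum_congr rfl
      intro i _
      rw [sin_sub]
      ring
    rw [this, ← hc, ← hs]
    ring
  have h4 : ∑ n ∈ range N, (1 - cos (ω * ((n + 1 : ℕ) : ℝ) - 2 * β)) = N := by
    have h5 := sum_cos ω (2 * β) N
    have h6 : (N : ℝ) * ω + ω / 2 - 2 * β = (ω / 2 - 2 * β) + k * (2 * π) := by
      rw [hω]
      field_simp
      ring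
    rw [h6, sin_add_nat_mul_two_pi, sub_self] at h5
    have h7 : 0 < sin (ω / 2) := by
      apply sin_pos_of_pos_of_lt_pi
      · positivity
      · rw [hω]
        have hN3 : (3 : ℝ) ≤ N := by exact_mod_cast hN
        have : 2 * π * k / N / 2 = π * (k / N) := by ring
        rw [this]
        have : (k : ℝ) / N < 1 := by
          rw [div_lt_one hNpos]
          linarith
        nlinarith
    have h8 : ∑ n ∈ range N, cos (((n + 1 : ℕ) : ℝ) * ω - 2 * β) = 0 := by
      rcases mul_eq_zero.mp h5 with h | h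
      · nlinarith
      · exact h
    rw [sum_sub_distrib]
    have h9 : ∑ n ∈ range N, cos (ω * ((n + 1 : ℕ) : ℝ) - 2 * β)
        = ∑ n ∈ range N, cos (((n + 1 : ℕ) : ℝ) * ω - 2 * β) := by
      apply sum_congr rfl
      intro n _
      rw [mul_comm]
    rw [h9, h8]
    simp
  rw [h4, h2, h3] at h1
  have h10 : P ^ 2 + R ^ 2 = ρ ^ 2 := by
    rw [← hc, ← hs]
    have := sin_sq_add_cos_sq β
    linear_combination ρ ^ 2 * this
  rw [h10]
  linarith

/-- The half frequency. -/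
lemma half_bound (w : ℕ → ℝ) (N : ℕ) (g E : ℝ) (hN : 3 ≤ N) (hg : 0 ≤ g)
    (H : ∀ f : ℕ → ℝ, Test N f → g * ∑ n ∈ range N, f (n + 1) ≤ Q w N f + E) :
    g * (2 * N / π - π / (4 * N)) + g * N - (∑ i ∈ range (N + 1), w i) ^ 2 - E
      ≤ 2 * (∑ i ∈ range (N + 1), w i * cos ((π / N) * i))
        * (∑ i ∈ range (N + 1), w i * sin ((π / N) * i)) := by
  set ω : ℝ := π / N with hω
  set C := ∑ i ∈ range (N + 1), w i * cos (ω * i) with hC
  set D := ∑ i ∈ range (N + 1), w i * sin (ω * i) with hD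
  have hNpos : (0 : ℝ) < N := by exact_mod_cast (by omega : 0 < N)
  have hpi := pi_pos
  have hω0 : 0 < ω := by positivity
  have htest : Test N (fun n => 1 + cos (ω * n - π / 2)) := by
    apply test_cos' N (by omega)
    rw [abs_of_nonneg (by positivity), hω]
    apply div_le_div_of_nonneg_right _ hNpos.le
    have := pi_lt_d2
    linarith
  have h1 := H _ htest
  have h2 : Q w N (fun n => cos (ω * n - π / 2)) = 2 * C * D := by
    unfold Q
    rw [mul_assoc, hC, hD, sum_mul_sum, mul_sum]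
    have e1 : ∀ i j : ℕ, w i * w j * cos (ω * ((i + j : ℕ) : ℝ) - π / 2)
        = (w i * cos (ω * i)) * (w j * sin (ω * j)) + (w j * cos (ω * j)) * (w i * sin (ω * i)) := by
      intro i j
      rw [cos_sub_pi_div_two]
      have : ω * ((i + j : ℕ) : ℝ) = ω * i + ω * j := by push_cast; ring
      rw [this, sin_add]
      ring
    simp_rw [e1, sum_add_distrib]
    have e2 : ∑ i ∈ range (N + 1), ∑ j ∈ range (N + 1), (w j * cos (ω * j)) * (w i * sin (ω * i))
        = ∑ i ∈ range (N + 1), ∑ j ∈ range (N + 1), (w i * cos (ω * i)) * (w j * sin (ω * j)) := by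
      rw [sum_comm]
    rw [e2, ← sum_add_distrib]
    apply sum_congr rfl
    intro i _
    ring
  rw [Q_add, Q_one, h2] at h1
  have h3 : 2 * N / π - π / (4 * N) + N ≤ ∑ n ∈ range N, (1 + cos (ω * ((n + 1 : ℕ) : ℝ) - π / 2)) := by
    have h5 := sum_cos ω (π / 2) N
    have h6 : (N : ℝ) * ω + ω / 2 - π / 2 = π / 2 + ω / 2 := by
      rw [hω]
      field_simp
      ring
    have h7 : sin (π / 2 + ω / 2) = cos (ω / 2) := by
      rw [sin_add]; simp
    have h8 : sin (ω / 2 - π / 2) = - cos (ω / 2) := by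
      rw [sin_sub]; simp
    rw [h6, h7, h8] at h5
    set S := ∑ n ∈ range N, cos (((n + 1 : ℕ) : ℝ) * ω - π / 2) with hS
    have h9 : ∑ n ∈ range N, (1 + cos (ω * ((n + 1 : ℕ) : ℝ) - π / 2)) = N + S := by
      rw [sum_add_distrib]
      congr 1
      · simp
      · apply sum_congr rfl
        intro n _
        rw [mul_comm]
    rw [h9]
    have h10 : sin (ω / 2) ≤ ω / 2 := sin_le (by positivity)
    have h11 : 1 - (ω / 2) ^ 2 / 2 ≤ cos (ω / 2) := one_sub_sq_div_two_le_cos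
    have hωle : ω / 2 < π := by
      rw [hω]
      have hN3 : (3 : ℝ) ≤ N := by exact_mod_cast hN
      have h12 : π / N ≤ π := by
        rw [div_le_iff₀ hNpos]
        nlinarith
      linarith
    have h13 : 0 < sin (ω / 2) := sin_pos_of_pos_of_lt_pi (by positivity) hωle
    have hcospos : 0 ≤ cos (ω / 2) := by
      have : ω / 2 ≤ 1 := by
        rw [hω]
        have hN3 : (3 : ℝ) ≤ N := by exact_mod_cast hN
        have h4 := pi_lt_d2
        rw [div_div, div_le_one (by positivity)]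
        nlinarith
      nlinarith
    have hSpos : 0 ≤ S := by
      by_contra hneg
      push Not at hneg
      nlinarith
    have h14 : 1 - (ω / 2) ^ 2 / 2 ≤ (ω / 2) * S := by nlinarith
    have h15 : 2 * N / π - π / (4 * N) = (1 - (ω / 2) ^ 2 / 2) / (ω / 2) := by
      rw [hω]
      field_simp
      ring
    have h16 : (1 - (ω / 2) ^ 2 / 2) / (ω / 2) ≤ S := by
      rw [div_le_iff₀ (by positivity)]
      linarith
    linarith
  have h4 := mul_le_mul_of_nonneg_left h3 hg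
  nlinarith

/-- The trigonometric majorant. -/
lemma majorant (t : ℝ) (ht0 : 0 ≤ t) (ht1 : t ≤ π) :
    cos t + sin t ≤ 0.9485 + 0.521 * sin (2 * t) + 0.055 * cos (4 * t) := by
  have hs : 0 ≤ sin t := sin_nonneg_of_nonneg_of_le_pi ht0 ht1
  have hc : -1 ≤ cos t := neg_one_le_cos t
  have h1 := sin_sq_add_cos_sq t
  have h2 : sin (2 * t) = (cos t + sin t) ^ 2 - 1 := by
    rw [sin_two_mul]
    linear_combination (-1 : ℝ) * h1
  have h3 : cos (4 * t) = 1 - 2 * (sin (2 * t)) ^ 2 := by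
    have : 4 * t = 2 * (2 * t) := by ring
    rw [this, cos_two_mul]
    have := sin_sq_add_cos_sq (2 * t)
    linear_combination 2 * this
  rw [h3, h2]
  set u := cos t + sin t with hu
  have hu1 : -1 ≤ u := by linarith
  have hu2 : u ^ 2 ≤ 2 := by
    rw [hu]
    nlinarith [sq_nonneg (cos t - sin t)]
  have hu3 : u ≤ 1.4143 := by nlinarith
  have h4 : 0 ≤ (1.4143 - u) * (u + 3.1543) * (u - 0.87) ^ 2 := by
    apply mul_nonneg (mul_nonneg (by linarith) (by linarith)) (sq_nonneg _)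
  nlinarith [sq_nonneg (u - 1.27), h4]

/-- The resulting inequality. -/
lemma moser (w : ℕ → ℝ) (N : ℕ) (g E : ℝ) (hN : 3 ≤ N) (hg : 0 ≤ g) (hw : ∀ i, 0 ≤ w i)
    (H : ∀ f : ℕ → ℝ, Test N f → g * ∑ n ∈ range N, f (n + 1) ≤ Q w N f + E)
    (z : ℝ) (hz : z = ∑ i ∈ range (N + 1), w i)
    (hpos : 0 < g * (2 * N / π - π / (4 * N)) + g * N - z ^ 2 - E) :
    0 ≤ z ^ 2 - g * N + E ∧
    2 * (g * (2 * N / π - π / (4 * N)) + g * N - z ^ 2 - E)
      ≤ (0.9485 * z + 0.576 * √(z ^ 2 - g * N + E)) ^ 2 := by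
  have hNpos : (0 : ℝ) < N := by exact_mod_cast (by omega : 0 < N)
  have h1 := fourier_bound w N g E hN H 1 le_rfl (by norm_num)
  have h2 := fourier_bound w N g E hN H 2 (by norm_num) le_rfl
  have h3 := half_bound w N g E hN hg H
  rw [← hz] at h1 h2 h3
  set C := ∑ i ∈ range (N + 1), w i * cos ((π / N) * i) with hC
  set D := ∑ i ∈ range (N + 1), w i * sin ((π / N) * i) with hD
  set S2 := ∑ i ∈ range (N + 1), w i * sin ((2 * π * (1 : ℕ) / N) * i) with hS2
  set C4 := ∑ i ∈ range (N + 1), w i * cos ((2 * π * (2 : ℕ) / N) * i) with hC4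
  have hnn : 0 ≤ z ^ 2 - g * N + E := le_trans (by positivity) h1
  refine ⟨hnn, ?_⟩
  have hS2le : S2 ≤ √(z ^ 2 - g * N + E) := by
    apply le_sqrt_of_sq_le
    have := sq_nonneg (∑ i ∈ range (N + 1), w i * cos ((2 * π * (1 : ℕ) / N) * i))
    linarith
  have hC4le : C4 ≤ √(z ^ 2 - g * N + E) := by
    apply le_sqrt_of_sq_le
    have := sq_nonneg (∑ i ∈ range (N + 1), w i * sin ((2 * π * (2 : ℕ) / N) * i))
    linarith
  have hrange : ∀ i ∈ range (N + 1), 0 ≤ (π / N) * i ∧ (π / N) * i ≤ π := by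
    intro i hi
    have hi' : i ≤ N := by simpa [Nat.lt_succ_iff] using hi
    have hi'' : (i : ℝ) ≤ N := by exact_mod_cast hi'
    have hpi := pi_pos
    refine ⟨by positivity, ?_⟩
    rw [div_mul_eq_mul_div, div_le_iff₀ hNpos]
    nlinarith
  have hD0 : 0 ≤ D := by
    apply sum_nonneg
    intro i hi
    exact mul_nonneg (hw i) (sin_nonneg_of_nonneg_of_le_pi (hrange i hi).1 (hrange i hi).2)
  have hCD : 0 < 2 * C * D := lt_of_lt_of_le hpos h3
  have hC0 : 0 ≤ C := by
    by_contra hneg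
    push Not at hneg
    nlinarith
  have hmaj : C + D ≤ 0.9485 * z + 0.521 * S2 + 0.055 * C4 := by
    rw [hC, hD, hS2, hC4, hz, ← sum_add_distrib, mul_sum, mul_sum, mul_sum, ← sum_add_distrib,
      ← sum_add_distrib]
    apply sum_le_sum
    intro i hi
    have h4 := majorant ((π / N) * i) (hrange i hi).1 (hrange i hi).2
    have e1 : 2 * π * ((1 : ℕ) : ℝ) / N * i = 2 * (π / N * i) := by push_cast; ring
    have e2 : 2 * π * ((2 : ℕ) : ℝ) / N * i = 4 * (π / N * i) := by push_cast; ring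
    rw [e1, e2]
    have := mul_le_mul_of_nonneg_left h4 (hw i)
    linarith
  have hle : C + D ≤ 0.9485 * z + 0.576 * √(z ^ 2 - g * N + E) := by linarith
  have h5 : 2 * (2 * C * D) ≤ (C + D) ^ 2 := by nlinarith [sq_nonneg (C - D)]
  have h6 : (C + D) ^ 2 ≤ (0.9485 * z + 0.576 * √(z ^ 2 - g * N + E)) ^ 2 := by
    apply pow_le_pow_left₀ (by positivity) hle
  linarith

end Pool.Agent.H990R2.Dig
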