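import Pool.Agent.H990R2.Dig.Zeros
import Pool.Agent.H990R2.Dig.Trig

/-!
Lower bound for the number of nonzero digits of quadratic integers.
-/

namespace Pool.Agent.H990R2.Dig

open Finset Real

variable {b : ℕ} {x : ℝ}

/-- triangular sums are at most full sums -/
lemma tri_le (G : ℕ → ℕ → ℝ) (hG : ∀ i j, 0 ≤ G i j) (N : ℕ) :
    ∑ n ∈ range (N + 1), ∑ i ∈ range (n + 1), G i (n - i)
      ≤ ∑ i ∈ range (N + 1), ∑ j ∈ range (N + 1), G i j := by
  have h1 : ∑ n ∈ range (N + 1), ∑ i ∈ range (n + 1), G i (n - i)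
      = ∑ i ∈ range (N + 1), ∑ n ∈ Ico i (N + 1), G i (n - i) := by
    apply Finset.sum_comm'
    intro n i
    simp only [mem_range, mem_Ico]
    omega
  rw [h1]
  apply sum_le_sum
  intro i hi
  rw [sum_Ico_eq_sum_range]
  have h2 : ∀ j, i + j - i = j := fun j => by omega
  simp_rw [h2]
  apply sum_le_sum_of_subset_of_nonneg
  · intro j hj
    simp only [mem_range] at *
    omega
  · intro j _ _
    exact hG i j

/-- The error term. -/
noncomputable def Er (b : ℕ) (x : ℝ) (a m : ℤ) (N : ℕ) : ℝ :=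
  15 * gf b * ((b - 1 : ℕ) * zc b x N + a.natAbs + 1)
    + 4 * gf b * (a.natAbs + 3) * (1 + 3 * zc b x N + tz b x a m N)

lemma digits_test (hb : 2 ≤ b) (hx0 : 0 < x) (hx1 : x < 1) (hx : Irrational x) (a m : ℤ)
    (hroot : x ^ 2 + a * x = m) (N : ℕ) (hN : 1 ≤ N) (f : ℕ → ℝ) (hf : Test N f) :
    (gf b : ℝ) * ∑ n ∈ range N, f (n + 1)
      ≤ Q (fun i => (nz b x i : ℝ)) N f + Er b x a m N := by
  have hNpos : (0 : ℝ) < N := by exact_mod_cast (by omega : 0 < N)
  set g : ℝ := (gf b : ℝ) with hg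
  have hg1 : 1 ≤ g := by rw [hg]; exact_mod_cast gf_pos b
  set v : ℕ → ℝ := fun n => (V b x a m n : ℝ) with hv
  have hv0 : ∀ n, 0 ≤ v n := fun n => Nat.cast_nonneg _
  set W : ℝ := ((b - 1 : ℕ) * zc b x N + a.natAbs + 1 : ℝ) with hW
  have hvW : ∀ n, n ≤ N → v n ≤ W := by
    intro n hn
    have h1 := V_le hb hx0 hx1 hx a m hroot n
    have h2 : (b - 1) * zc b x n ≤ (b - 1) * zc b x N := Nat.mul_le_mul_left _ (zc_mono hn)
    have h3 : V b x a m n ≤ (b - 1) * zc b x N + a.natAbs + 1 := by omega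
    have h4 : (V b x a m n : ℝ) ≤ ((b - 1 : ℕ) * zc b x N + a.natAbs + 1 : ℝ) := by
      exact_mod_cast h3
    exact h4
  have hW0 : 0 ≤ W := le_trans (hv0 N) (hvW N le_rfl)
  have hmain : ∀ n, g * f (n + 1) ≤ (rep b x (n + 1) : ℝ) * f (n + 1)
      + g * ((v (n + 1) - v n) * f (n + 1))
      + 2 * (g * (a.natAbs + 3)) * ((xc b x a m n : ℝ) + xc b x a m (n + 1)) := by
    intro n
    have h1 : (g * (1 + v n) : ℝ) ≤ rep b x (n + 1) + g * v (n + 1)
      + g * (a.natAbs + 3) * ((xc b x a m n : ℝ) + xc b x a m (n + 1)) := by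
      have h0 := main_ineq (x := x) hb hx1 a m n
      have h00 : ((gf b : ℝ) * (1 + (V b x a m n : ℝ)) : ℝ) ≤ rep b x (n + 1)
          + (gf b : ℝ) * (V b x a m (n + 1) : ℝ)
          + (gf b : ℝ) * (a.natAbs + 3) * ((xc b x a m n : ℝ) + xc b x a m (n + 1)) := by
        exact_mod_cast h0
      exact h00
    have hf0 := (hf (n + 1)).1
    have hf2 := (hf (n + 1)).2.1
    have h2 := mul_le_mul_of_nonneg_right h1 hf0
    have hX : 0 ≤ g * (a.natAbs + 3) * ((xc b x a m n : ℝ) + xc b x a m (n + 1)) := by positivity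
    have h3 : g * (a.natAbs + 3) * ((xc b x a m n : ℝ) + xc b x a m (n + 1)) * f (n + 1)
        ≤ g * (a.natAbs + 3) * ((xc b x a m n : ℝ) + xc b x a m (n + 1)) * 2 :=
      mul_le_mul_of_nonneg_left hf2 hX
    nlinarith
  have hsum := sum_le_sum (s := range N) (fun n _ => hmain n)
  rw [← mul_sum, sum_add_distrib, sum_add_distrib, ← mul_sum, ← mul_sum] at hsum
  -- exceptional terms
  have hX : ∑ n ∈ range N, ((xc b x a m n : ℝ) + xc b x a m (n + 1))
      ≤ 2 * (1 + 3 * zc b x N + tz b x a m N) := by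
    have h1 := xc_sum (b := b) (x := x) a m N
    have h2 : ∑ n ∈ range N, xc b x a m n ≤ ∑ n ∈ range (N + 1), xc b x a m n :=
      sum_le_sum_of_subset (by intro i hi; simp only [mem_range] at *; omega)
    have h3 : ∑ n ∈ range N, xc b x a m (n + 1) ≤ ∑ n ∈ range (N + 1), xc b x a m n := by
      rw [sum_range_succ' (fun n => xc b x a m n)]
      exact Nat.le_add_right _ _
    have h4 : ∑ n ∈ range N, (xc b x a m n + xc b x a m (n + 1))
        ≤ 2 * (1 + 3 * zc b x N + tz b x a m N) := by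
      rw [sum_add_distrib]
      omega
    exact_mod_cast h4
  -- potential terms
  have hV : ∑ n ∈ range N, (v (n + 1) - v n) * f (n + 1) ≤ 15 * W := by
    have h1 : ∀ n ∈ range N, (v (n + 1) - v n) * f (n + 1)
        ≤ (v (n + 1) * f (n + 1) - v n * f n) + W * (13 / N) := by
      intro n hn
      have hn' : n ≤ N := by
        simp only [mem_range] at hn
        omega
      have h2 : v n * (f n - f (n + 1)) ≤ W * (13 / N) := by
        calc v n * (f n - f (n + 1)) ≤ v n * |f n - f (n + 1)| :=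
              mul_le_mul_of_nonneg_left (le_abs_self _) (hv0 n)
          _ ≤ W * (13 / N) := mul_le_mul (hvW n hn') (hf n).2.2 (abs_nonneg _) hW0
      linarith
    have h3 := sum_le_sum h1
    rw [sum_add_distrib, sum_range_sub (fun n => v n * f n) N] at h3
    simp only [sum_const, card_range, nsmul_eq_mul] at h3
    have h4 : (N : ℝ) * (W * (13 / N)) = 13 * W := by
      field_simp
    have h5 : v N * f N ≤ W * 2 := mul_le_mul (hvW N le_rfl) (hf N).2.1 (hf N).1 hW0
    have h6 : 0 ≤ v 0 * f 0 := mul_nonneg (hv0 0) (hf 0).1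
    linarith
  -- representations
  have hR : ∑ n ∈ range N, (rep b x (n + 1) : ℝ) * f (n + 1)
      ≤ Q (fun i => (nz b x i : ℝ)) N f := by
    set G : ℕ → ℕ → ℝ := fun i j => (nz b x i : ℝ) * nz b x j * f (i + j) with hG
    have h1 := tri_le G (fun i j => by rw [hG]; have := (hf (i + j)).1; positivity) N
    have h2 : ∀ n, (rep b x n : ℝ) * f n = ∑ i ∈ range (n + 1), G i (n - i) := by
      intro n
      unfold rep
      push_cast
      rw [sum_mul]
      apply sum_congr rfl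
      intro i hi
      have hi' : i ≤ n := by simpa [Nat.lt_succ_iff] using hi
      rw [hG]
      simp only
      rw [Nat.add_sub_cancel' hi']
    have h3 : ∑ n ∈ range N, (rep b x (n + 1) : ℝ) * f (n + 1)
        ≤ ∑ n ∈ range (N + 1), (rep b x n : ℝ) * f n := by
      rw [sum_range_succ' (fun n => (rep b x n : ℝ) * f n)]
      have : 0 ≤ (rep b x 0 : ℝ) * f 0 := mul_nonneg (Nat.cast_nonneg _) (hf 0).1
      linarith
    refine h3.trans ?_
    simp_rw [h2]
    exact h1
  have hgp : 0 ≤ g := by linarith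
  have h7 := mul_le_mul_of_nonneg_left hV hgp
  have h8 : 2 * (g * (a.natAbs + 3)) * ∑ n ∈ range N, ((xc b x a m n : ℝ) + xc b x a m (n + 1))
      ≤ 2 * (g * (a.natAbs + 3)) * (2 * (1 + 3 * zc b x N + tz b x a m N)) :=
    mul_le_mul_of_nonneg_left hX (by positivity)
  have h9 : Er b x a m N = g * (15 * W)
      + 2 * (g * (a.natAbs + 3)) * (2 * (1 + 3 * zc b x N + tz b x a m N)) := by
    unfold Er
    rw [hW, hg]
    ring
  rw [h9]
  linarith

/-- Numerical heart: with small errors the count cannot be small. -/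
lemma numeric (N : ℕ) (g E z : ℝ) (hN : 100 ≤ N) (hg : 1 ≤ g) (hz0 : 0 ≤ z)
    (hz : z ^ 2 ≤ 1.042568 * (g * N)) (hE : E ≤ 0.0003 * (g * N))
    (H : 0 < g * (2 * N / π - π / (4 * N)) + g * N - z ^ 2 - E →
      0 ≤ z ^ 2 - g * N + E ∧
      2 * (g * (2 * N / π - π / (4 * N)) + g * N - z ^ 2 - E)
        ≤ (0.9485 * z + 0.576 * √(z ^ 2 - g * N + E)) ^ 2) : False := by
  have hN' : (100 : ℝ) ≤ N := by exact_mod_cast hN
  have hNpos : (0 : ℝ) < N := by linarith
  have hgN : 0 < g * N := by positivity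
  have hpi := pi_pos
  have hpi2 := pi_lt_d4
  have h1 : 0.6366 * (N : ℝ) ≤ 2 * N / π := by
    rw [le_div_iff₀ hpi]
    nlinarith
  have h2 : π / (4 * N) ≤ 0.0001 * N := by
    rw [div_le_iff₀ (by positivity)]
    nlinarith
  have h3 : 0.5936 * (g * N) ≤ g * (2 * N / π - π / (4 * N)) + g * N - z ^ 2 - E := by
    have h4 : g * (0.6365 * N) ≤ g * (2 * N / π - π / (4 * N)) :=
      mul_le_mul_of_nonneg_left (by linarith) (by linarith)
    nlinarith
  obtain ⟨h5, h6⟩ := H (by nlinarith)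
  set M := √(g * N) with hM
  have hM2 : M ^ 2 = g * N := sq_sqrt hgN.le
  have hM0 : 0 ≤ M := sqrt_nonneg _
  have hz1 : z ≤ 1.02107 * M := by
    apply le_of_sq_le_sq _ (by positivity)
    rw [mul_pow, hM2]
    nlinarith
  have hs1 : √(z ^ 2 - g * N + E) ≤ 0.2071 * M := by
    apply sqrt_le_iff.mpr
    refine ⟨by positivity, ?_⟩
    rw [mul_pow, hM2]
    nlinarith
  have h7 : 0.9485 * z + 0.576 * √(z ^ 2 - g * N + E) ≤ 1.0878 * M := by linarith
  have h8 : 0 ≤ 0.9485 * z + 0.576 * √(z ^ 2 - g * N + E) := by positivity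
  have h9 : (0.9485 * z + 0.576 * √(z ^ 2 - g * N + E)) ^ 2 ≤ (1.0878 * M) ^ 2 :=
    pow_le_pow_left₀ h8 h7 2
  rw [mul_pow, hM2] at h9
  nlinarith

/-- The constant. -/
noncomputable def cb (b : ℕ) : ℝ := if Even b then 1.444 else 1.021

lemma cb_sq (b : ℕ) : (cb b) ^ 2 ≤ 1.042568 * (gf b : ℝ) := by
  unfold cb gf
  split_ifs <;> norm_num

lemma cb_pos (b : ℕ) : 0 < cb b := by
  unfold cb
  split_ifs <;> norm_num

lemma cb_le (b : ℕ) : cb b ≤ 2 := by
  unfold cb
  split_ifs <;> norm_num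

/-- The bound for numbers in `(0,1)`. -/
theorem unit_bound (hb : 2 ≤ b) (hx0 : 0 < x) (hx1 : x < 1) (hx : Irrational x) (a m : ℤ)
    (hroot : x ^ 2 + a * x = m) :
    ∀ᶠ N : ℕ in Filter.atTop, cb b * √N ≤ zc b x N := by
  set α : ℝ := (a.natAbs : ℝ) with hα
  have hα0 : 0 ≤ α := Nat.cast_nonneg _
  obtain ⟨C, hC0, hC⟩ := zero_count hb hx0 hx1 hx a m hroot (0.0001 / (4 * (α + 3)))
    (by positivity)
  -- constants
  set K' : ℝ := 15 * ((b - 1 : ℕ) * 2 + α + 1) + 4 * (α + 3) * (7 + 3 * C) with hK'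
  set K : ℝ := K' / 0.0002 with hK
  have hsqrt : ∀ᶠ N : ℕ in Filter.atTop, K ≤ √(N : ℝ) := by
    have : Filter.Tendsto (fun N : ℕ => √(N : ℝ)) Filter.atTop Filter.atTop :=
      tendsto_sqrt_atTop.comp tendsto_natCast_atTop_atTop
    exact this.eventually_ge_atTop K
  filter_upwards [hsqrt, Filter.eventually_ge_atTop 100] with N hKN hN
  by_contra hlt
  push Not at hlt
  have hN' : (100 : ℝ) ≤ N := by exact_mod_cast hN
  have hNpos : (0 : ℝ) < N := by linarith
  have hCN := hC N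
  set s := √(N : ℝ) with hs
  have hs2 : s ^ 2 = N := sq_sqrt hNpos.le
  have hs0 : 0 ≤ s := sqrt_nonneg _
  have hs1 : 1 ≤ s := by
    by_contra h
    push Not at h
    nlinarith
  set g : ℝ := (gf b : ℝ) with hg
  have hg1 : 1 ≤ g := by rw [hg]; exact_mod_cast gf_pos b
  set z : ℝ := (zc b x N : ℝ) with hz
  have hz0 : 0 ≤ z := Nat.cast_nonneg _
  have hzs : z ≤ 2 * s := by
    have := cb_le b
    nlinarith
  have hz2 : z ^ 2 ≤ 1.042568 * (g * N) := by
    have h1 : z ^ 2 ≤ (cb b * s) ^ 2 := pow_le_pow_left₀ hz0 hlt.le 2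
    rw [mul_pow, hs2] at h1
    have h2 := cb_sq b
    have h3 : (cb b) ^ 2 * N ≤ 1.042568 * g * N := mul_le_mul_of_nonneg_right h2 hNpos.le
    linarith
  have hE : Er b x a m N ≤ 0.0003 * (g * N) := by
    unfold Er
    have hB : (0 : ℝ) ≤ ((b - 1 : ℕ) : ℝ) := Nat.cast_nonneg _
    have h1 : ((b - 1 : ℕ) : ℝ) * z + α + 1 ≤ (((b - 1 : ℕ) : ℝ) * 2 + α + 1) * s := by
      nlinarith [mul_le_mul_of_nonneg_left hzs hB]
    have h2 : 1 + 3 * z ≤ 7 * s := by linarith
    have h2' : C * (z + 1) ≤ 3 * C * s := by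
      have : z + 1 ≤ 3 * s := by linarith
      nlinarith
    have h3 : (α + 3) * (1 + 3 * z + tz b x a m N)
        ≤ (α + 3) * (7 + 3 * C) * s + 0.0001 / 4 * N := by
      have e1 : (α + 3) * (0.0001 / (4 * (α + 3)) * N) = 0.0001 / 4 * N := by
        field_simp
      have e2 : 1 + 3 * z + tz b x a m N ≤ (7 + 3 * C) * s + 0.0001 / (4 * (α + 3)) * N := by
        linarith
      have e3 := mul_le_mul_of_nonneg_left e2 (by linarith : 0 ≤ α + 3)
      linarith
    have h4 : 15 * g * (((b - 1 : ℕ) : ℝ) * z + α + 1)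
        + 4 * g * (α + 3) * (1 + 3 * z + tz b x a m N)
        ≤ g * K' * s + 0.0001 * (g * N) := by
      have h5 := mul_le_mul_of_nonneg_left h1 (by linarith : 0 ≤ 15 * g)
      have h6 := mul_le_mul_of_nonneg_left h3 (by linarith : 0 ≤ 4 * g)
      rw [hK']
      linarith
    have h6 : K' ≤ 0.0002 * s := by
      rw [hK, div_le_iff₀ (by norm_num)] at hKN
      linarith
    have h7 : g * K' * s ≤ g * (0.0002 * s) * s := by
      apply mul_le_mul_of_nonneg_right _ hs0
      exact mul_le_mul_of_nonneg_left h6 (by linarith)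
    have h8 : g * (0.0002 * s) * s = 0.0002 * (g * N) := by
      rw [← hs2]; ring
    linarith
  refine numeric N g (Er b x a m N) z hN hg1 hz0 hz2 hE ?_
  intro hpos
  refine moser (fun i => (nz b x i : ℝ)) N g (Er b x a m N) (by omega) (by linarith)
    (fun i => Nat.cast_nonneg _)
    (fun f hf => digits_test hb hx0 hx1 hx a m hroot N (by omega) f hf) z ?_ hpos
  rw [hz]
  unfold zc
  push_cast
  rfl

/-- Number of nonzero digits among the first `N` digits after the radix point. -/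
lemma count_eq (hb : 2 ≤ b) (x : ℝ) (N : ℕ) :
    ((Icc 1 N).filter (fun n => ⌊(b : ℝ) ^ n * x⌋ % (b : ℤ) ≠ 0)).card
      = zc b (Int.fract x) N := by
  unfold zc
  have h0 : nz b (Int.fract x) 0 = 0 := by
    rw [nz_eq_zero]
    exact dg_zero (Int.fract_lt_one x)
  have h1 : ∑ i ∈ range (N + 1), nz b (Int.fract x) i = ∑ i ∈ Icc 1 N, nz b (Int.fract x) i := by
    symm
    apply sum_subset
    · intro i hi
      simp only [mem_range, mem_Icc] at *
      omega
    · intro i hi hi2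
      have : i = 0 := by
        simp only [mem_range, mem_Icc] at *
        omega
      rw [this, h0]
  rw [h1, card_filter]
  apply sum_congr rfl
  intro n hn
  have hn1 : 1 ≤ n := by
    simp only [mem_Icc] at hn
    omega
  have key : ⌊(b : ℝ) ^ n * x⌋ % (b : ℤ) = (dg b (Int.fract x) n : ℤ) := by
    have h2 : (b : ℝ) ^ n * x = (b : ℝ) ^ n * Int.fract x + ((b ^ n * ⌊x⌋ : ℤ) : ℝ) := by
      push_cast
      rw [← mul_add, Int.fract_add_floor]
    rw [h2, Int.floor_add_intCast]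
    obtain ⟨k, rfl⟩ := Nat.exists_eq_succ_of_ne_zero (by omega : n ≠ 0)
    have h3 : (b : ℤ) ^ (k.succ) * ⌊x⌋ = b * (b ^ k * ⌊x⌋) := by
      rw [pow_succ]; ring
    rw [h3, Int.add_mul_emod_self_left]
    unfold dg F
    have h4 : 0 ≤ (b : ℝ) ^ k.succ * Int.fract x := by
      have := Int.fract_nonneg x
      positivity
    rw [← Int.natCast_floor_eq_floor h4]
    push_cast
    rfl
  unfold nz
  by_cases h : dg b (Int.fract x) n = 0
  · rw [if_pos h, if_neg]
    rw [key, h]
    simp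
  · rw [if_neg h, if_pos]
    rw [key]
    exact_mod_cast h

/-- Nonzero digits of real quadratic integers. -/
theorem main (x : ℝ) (hx : Irrational x) (u v : ℤ) (hroot : x ^ 2 + u * x + v = 0)
    (b : ℕ) (hb : 2 ≤ b) :
    ∀ᶠ N : ℕ in Filter.atTop, cb b * √N
      ≤ ((Icc 1 N).filter (fun n => ⌊(b : ℝ) ^ n * x⌋ % (b : ℤ) ≠ 0)).card := by
  set y := Int.fract x with hy
  set k := ⌊x⌋ with hk
  have hxy : x = y + k := by rw [hy, hk]; exact (Int.fract_add_floor x).symm
  have hyirr : Irrational y := by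
    have : y = x - (k : ℝ) := by linarith
    rw [this]
    exact hx.sub_intCast k
  have hy0 : 0 < y := lt_of_le_of_ne (Int.fract_nonneg x) (by
    intro h
    have := hyirr.ne_zero
    exact this h.symm)
  have hy1 : y < 1 := Int.fract_lt_one x
  have hroot' : y ^ 2 + ((u + 2 * k : ℤ) : ℝ) * y = ((-(k ^ 2 + u * k + v) : ℤ) : ℝ) := by
    push_cast
    rw [hxy] at hroot
    linear_combination hroot
  have h := unit_bound (b := b) hb hy0 hy1 hyirr _ _ hroot'
  filter_upwards [h] with N hN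
  rw [count_eq hb x N]
  exact hN

end Pool.Agent.H990R2.Dig
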