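import Mathlib

/-!
Digits of a number `x ∈ (0,1)` with `x^2 + a x = m`, and the integral tails of the expansion of `x^2 + a x`.
-/

namespace Pool.Agent.H990R2.Dig

open Finset

/-- The integer part of `b^n x`. -/
noncomputable def F (b : ℕ) (x : ℝ) (n : ℕ) : ℕ := ⌊(b : ℝ) ^ n * x⌋₊

/-- The `n`-th digit of `x` in base `b`. -/
noncomputable def dg (b : ℕ) (x : ℝ) (n : ℕ) : ℕ := F b x n % b

/-- The fractional part of `b^n x`. -/
noncomputable def th (b : ℕ) (x : ℝ) (n : ℕ) : ℝ := (b : ℝ) ^ n * x - F b x n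

/-- The tail of the expansion of `x^2 + a x`, scaled by `b^n`; an integer. -/
noncomputable def T (b : ℕ) (x : ℝ) (a m : ℤ) (n : ℕ) : ℤ :=
  m * (b : ℤ) ^ n - ∑ i ∈ range (n + 1), (dg b x i : ℤ) * (F b x (n - i) : ℤ)
    - a * (F b x n : ℤ)

variable {b : ℕ} {x : ℝ}

lemma F_zero (hx1 : x < 1) : F b x 0 = 0 := by
  unfold F
  rw [pow_zero, one_mul]
  exact Nat.floor_eq_zero.mpr hx1

lemma dg_zero (hx1 : x < 1) : dg b x 0 = 0 := by
  unfold dg
  rw [F_zero hx1]
  exact Nat.zero_mod b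

lemma dg_lt (hb : 2 ≤ b) (n : ℕ) : dg b x n < b := Nat.mod_lt _ (by omega)

lemma F_succ (hb : 2 ≤ b) (n : ℕ) : F b x (n + 1) = b * F b x n + dg b x (n + 1) := by
  have h : F b x n = F b x (n + 1) / b := by
    unfold F
    rw [← Nat.floor_div_natCast]
    congr 1
    have hb0 : (b : ℝ) ≠ 0 := by
      have : (0 : ℝ) < b := by exact_mod_cast (by omega : 0 < b)
      exact this.ne'
    field_simp
    ring
  rw [h]
  unfold dg
  exact (Nat.div_add_mod _ _).symm

lemma F_eq_sum (hb : 2 ≤ b) (hx1 : x < 1) (n : ℕ) :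
    F b x n = ∑ i ∈ range (n + 1), dg b x i * b ^ (n - i) := by
  induction n with
  | zero => simp [F_zero hx1, dg_zero hx1]
  | succ n ih =>
    rw [F_succ hb n, ih, sum_range_succ _ (n + 1), mul_sum]
    congr 1
    · apply sum_congr rfl
      intro i hi
      have hi' : i ≤ n := by simpa [Nat.lt_succ_iff] using hi
      rw [Nat.succ_sub hi', pow_succ]
      ring
    · simp

lemma th_lt_one (hx0 : 0 < x) (n : ℕ) : th b x n < 1 := by
  unfold th F
  have := Nat.lt_floor_add_one ((b : ℝ) ^ n * x)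
  linarith

lemma th_pos (hb : 2 ≤ b) (hx0 : 0 < x) (hx : Irrational x) (n : ℕ) : 0 < th b x n := by
  have hpos : 0 < (b : ℝ) ^ n := by
    have : (0 : ℝ) < b := by exact_mod_cast (by omega : 0 < b)
    positivity
  have hle : (F b x n : ℝ) ≤ (b : ℝ) ^ n * x := Nat.floor_le (by positivity)
  have hne : (b : ℝ) ^ n * x ≠ (F b x n : ℝ) := by
    have h1 : Irrational (((b ^ n : ℕ) : ℝ) * x) := by
      rw [mul_comm]
      apply Irrational.mul_natCast hx
      have : 0 < b := by omega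
      positivity
    have h2 := h1.ne_nat (F b x n)
    push_cast at h2
    exact h2
  unfold th
  have := lt_of_le_of_ne hle (Ne.symm hne)
  linarith

lemma T_succ (hb : 2 ≤ b) (hx1 : x < 1) (a m : ℤ) (n : ℕ) :
    T b x a m (n + 1) = (b : ℤ) * T b x a m n
      - (∑ i ∈ range (n + 2), (dg b x i : ℤ) * (dg b x (n + 1 - i) : ℤ))
      - a * (dg b x (n + 1) : ℤ) := by
  have h1 : ∑ i ∈ range (n + 1 + 1), (dg b x i : ℤ) * (F b x (n + 1 - i) : ℤ)
      = (b : ℤ) * ∑ i ∈ range (n + 1), (dg b x i : ℤ) * (F b x (n - i) : ℤ)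
        + ∑ i ∈ range (n + 2), (dg b x i : ℤ) * (dg b x (n + 1 - i) : ℤ) := by
    rw [sum_range_succ, sum_range_succ _ (n + 1), Nat.sub_self, F_zero hx1, dg_zero hx1, mul_sum,
      ← add_assoc, ← sum_add_distrib]
    congr 1
    apply sum_congr rfl
    intro i hi
    have hi' : i ≤ n := by simpa [Nat.lt_succ_iff] using hi
    rw [Nat.succ_sub hi', F_succ hb (n - i)]
    push_cast
    ring
  unfold T
  rw [h1, F_succ hb n]
  push_cast
  ring

lemma T_real (hb : 2 ≤ b) (hx1 : x < 1) (a m : ℤ) (hroot : x ^ 2 + a * x = m) (n : ℕ) :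
    (T b x a m n : ℝ) = ∑ i ∈ range (n + 1), (dg b x i : ℝ) * th b x (n - i)
      + (x + a) * th b x n := by
  have hbR : (0 : ℝ) < b := by exact_mod_cast (by omega : 0 < b)
  have h1 : (F b x n : ℝ) = ∑ i ∈ range (n + 1), (dg b x i : ℝ) * (b : ℝ) ^ (n - i) := by
    rw [F_eq_sum hb hx1 n]
    push_cast
    rfl
  have h2 : ∑ i ∈ range (n + 1), (dg b x i : ℝ) * th b x (n - i)
      = (F b x n : ℝ) * x - ∑ i ∈ range (n + 1), (dg b x i : ℝ) * (F b x (n - i) : ℝ) := by
    rw [h1, sum_mul, ← sum_sub_distrib]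
    apply sum_congr rfl
    intro i hi
    unfold th
    ring
  rw [h2]
  unfold T th
  push_cast
  rw [← hroot]
  ring

/-- In a long gap of the digits the tail is nonnegative. -/
lemma T_nonneg_of_gap (hb : 2 ≤ b) (hx0 : 0 < x) (hx1 : x < 1) (hx : Irrational x) (a m : ℤ)
    (hroot : x ^ 2 + a * x = m) (n L : ℕ) (hL : |a| ≤ (b : ℤ) ^ L)
    (hgap : ∀ k, n < k → k ≤ n + L → dg b x k = 0) : 0 ≤ T b x a m n := by
  have hbR : (0 : ℝ) < b := by exact_mod_cast (by omega : 0 < b)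
  have hF : ∀ l, l ≤ L → F b x (n + l) = b ^ l * F b x n := by
    intro l
    induction l with
    | zero => intro _; simp
    | succ l ih =>
      intro hl
      rw [← add_assoc, F_succ hb, ih (by omega), hgap (n + l + 1) (by omega) (by omega), pow_succ]
      ring
  have hth : (b : ℝ) ^ L * th b x n = th b x (n + L) := by
    unfold th
    rw [hF L le_rfl, pow_add]
    push_cast
    ring
  have h1 := th_lt_one (b := b) hx0 (n + L)
  have h2 := th_pos hb hx0 hx n
  have hbL : (0 : ℝ) < (b : ℝ) ^ L := by positivity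
  have hLR : |(a : ℝ)| ≤ (b : ℝ) ^ L := by exact_mod_cast hL
  have h3 : |(a : ℝ)| * th b x n < 1 := by
    calc |(a : ℝ)| * th b x n ≤ (b : ℝ) ^ L * th b x n := mul_le_mul_of_nonneg_right hLR h2.le
      _ < 1 := by rw [hth]; exact h1
  have h4 : -1 < (T b x a m n : ℝ) := by
    rw [T_real hb hx1 a m hroot n]
    have h5 : 0 ≤ ∑ i ∈ range (n + 1), (dg b x i : ℝ) * th b x (n - i) :=
      sum_nonneg fun i _ => mul_nonneg (Nat.cast_nonneg _) (th_pos hb hx0 hx _).le
    have h6 : -(|(a : ℝ)| * th b x n) ≤ a * th b x n := by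
      have := neg_abs_le (a : ℝ)
      nlinarith
    have h7 : 0 < x * th b x n := by positivity
    nlinarith
  have h8 : -1 < T b x a m n := by exact_mod_cast h4
  omega

lemma T_le (hb : 2 ≤ b) (hx0 : 0 < x) (hx1 : x < 1) (hx : Irrational x) (a m : ℤ)
    (hroot : x ^ 2 + a * x = m) (n : ℕ) :
    T b x a m n ≤ ∑ i ∈ range (n + 1), (dg b x i : ℤ) + |a| + 1 := by
  have h : (T b x a m n : ℝ) ≤ ((∑ i ∈ range (n + 1), (dg b x i : ℤ) + |a| + 1 : ℤ) : ℝ) := by
    rw [T_real hb hx1 a m hroot n]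
    push_cast
    have h1 : ∑ i ∈ range (n + 1), (dg b x i : ℝ) * th b x (n - i)
        ≤ ∑ i ∈ range (n + 1), (dg b x i : ℝ) := by
      apply sum_le_sum
      intro i _
      have h3 := th_lt_one (b := b) hx0 (n - i)
      have h4 : (0 : ℝ) ≤ dg b x i := Nat.cast_nonneg _
      nlinarith
    have h5 := th_lt_one (b := b) hx0 n
    have h6 := th_pos hb hx0 hx n
    have h7 : a * th b x n ≤ |(a : ℝ)| := by
      have h8 := le_abs_self (a : ℝ)
      have h9 := abs_nonneg (a : ℝ)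
      nlinarith
    nlinarith
  exact_mod_cast h

end Pool.Agent.H990R2.Dig
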