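import Pool.Agent.H990R2.Dig.Comb
import Pool.Agent.H949R2.DigitsR

/-!
The tails are positive at almost all positions (from Ridout's theorem, via the files of helper393 and helper949).
-/

namespace Pool.Agent.H990R2.Dig

open Finset

variable {b : ℕ} {x : ℝ}

/-- The coefficients of the polynomial of `y = x + 1`. -/
def co (a m : ℤ) (j : ℕ) : ℤ := if j = 0 then 1 - a - m else if j = 1 then a - 2 else 1

lemma dg_eq_digit (hx0 : 0 < x) (n : ℕ) :
    Pool.Agent.H949R2.digit b x n = dg b x n := by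
  unfold Pool.Agent.H949R2.digit dg F
  have h : 0 ≤ (b : ℝ) ^ n * x := by positivity
  rw [← Int.natCast_floor_eq_floor h]
  have : ((⌊(b : ℝ) ^ n * x⌋₊ : ℤ) % (b : ℤ)) = ((⌊(b : ℝ) ^ n * x⌋₊ % b : ℕ) : ℤ) := by
    push_cast; rfl
  rw [this, Int.toNat_natCast]

lemma cc_succ (hb : 2 ≤ b) (hx0 : 0 < x) (n : ℕ) :
    Pool.Agent.H949R2.cc b (x + 1) (n + 1) = dg b x (n + 1) := by
  unfold Pool.Agent.H949R2.cc
  rw [if_neg (by omega)]
  have h := Pool.Agent.H949R2.digit_add_int b hb x 1 (n + 1) (by omega)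
  push_cast at h
  rw [h]
  exact dg_eq_digit hx0 (n + 1)

lemma cc_zero : Pool.Agent.H949R2.cc b (x + 1) 0 = 1 := by
  unfold Pool.Agent.H949R2.cc
  rw [if_pos rfl]

lemma r_one (c : ℕ → ℕ) (k : ℕ) : Pool.Agent.H949R2.r c 1 k = c k := by
  rw [Pool.Agent.H949R2.r_succ]
  rw [Finset.Nat.sum_antidiagonal_eq_sum_range_succ
    (fun i j => c i * Pool.Agent.H949R2.r c 0 j) k]
  rw [Finset.sum_eq_single k]
  · simp [Pool.Agent.H949R2.r_zero]
  · intro i hi hik
    have : k - i ≠ 0 := by
      simp only [mem_range] at hi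
      omega
    simp [Pool.Agent.H949R2.r_zero, this]
  · intro h
    simp at h

lemma r_two (hb : 2 ≤ b) (hx0 : 0 < x) (hx1 : x < 1) (n : ℕ) :
    (Pool.Agent.H949R2.r (Pool.Agent.H949R2.cc b (x + 1)) 2 (n + 1) : ℤ)
      = (∑ i ∈ range (n + 2), (dg b x i : ℤ) * (dg b x (n + 1 - i) : ℤ))
        + 2 * (dg b x (n + 1) : ℤ) := by
  rw [Pool.Agent.H949R2.r_succ]
  rw [Finset.Nat.sum_antidiagonal_eq_sum_range_succ
    (fun i j => Pool.Agent.H949R2.cc b (x + 1) i *
      Pool.Agent.H949R2.r (Pool.Agent.H949R2.cc b (x + 1)) 1 j) (n + 1)]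
  simp_rw [r_one]
  push_cast
  rw [sum_range_succ, sum_range_succ', sum_range_succ _ (n + 1), sum_range_succ' _ n, Nat.sub_self,
    dg_zero hx1, cc_zero]
  simp only [Nat.sub_zero, Nat.cast_zero, mul_zero, zero_mul, add_zero, Nat.cast_one, one_mul,
    mul_one]
  rw [cc_succ hb hx0 n]
  have h1 : ∀ k ∈ range n, ((Pool.Agent.H949R2.cc b (x + 1) (k + 1) : ℤ)
      * (Pool.Agent.H949R2.cc b (x + 1) (n + 1 - (k + 1)) : ℤ))
      = (dg b x (k + 1) : ℤ) * (dg b x (n + 1 - (k + 1)) : ℤ) := by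
    intro k hk
    simp only [mem_range] at hk
    obtain ⟨l, hl⟩ : ∃ l, n + 1 - (k + 1) = l + 1 := ⟨n - k - 1, by omega⟩
    rw [hl, cc_succ hb hx0, cc_succ hb hx0]
  rw [sum_congr rfl h1]
  ring

lemma T_eq949 (hb : 2 ≤ b) (hx0 : 0 < x) (hx1 : x < 1) (a m : ℤ) (n : ℕ) :
    Pool.Agent.H949R2.T b (Pool.Agent.H949R2.cc b (x + 1)) (co a m) 2 n = T b x a m n := by
  induction n with
  | zero =>
    rw [Pool.Agent.H949R2.T_zero]
    simp_rw [Pool.Agent.H949R2.r_at_zero _ cc_zero]
    unfold T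
    simp [Finset.sum_range_succ, co, F_zero hx1]
    ring
  | succ n ih =>
    rw [Pool.Agent.H949R2.T_succ, ih, T_succ hb hx1 a m n]
    rw [sum_range_succ, sum_range_succ, sum_range_succ, sum_range_zero]
    rw [r_two hb hx0 hx1 n, r_one, cc_succ hb hx0 n]
    simp [co, Pool.Agent.H949R2.r_zero]
    ring

lemma floor_one (hx0 : 0 < x) (hx1 : x < 1) : ⌊x + 1⌋ = 1 := by
  rw [Int.floor_eq_iff]
  push_cast
  constructor <;> linarith

open Classical in
/-- Almost all tails are positive. -/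
lemma zero_count (hb : 2 ≤ b) (hx0 : 0 < x) (hx1 : x < 1) (hx : Irrational x) (a m : ℤ)
    (hroot : x ^ 2 + a * x = m) (ε : ℝ) (hε : 0 < ε) :
    ∃ C : ℝ, 0 ≤ C ∧ ∀ N : ℕ, (tz b x a m N : ℝ) ≤ ε * N + C * (zc b x N + 1) := by
  have halg : IsAlgebraic ℚ (x + 1) := by
    have h1 : IsAlgebraic ℚ x := by
      refine ⟨Polynomial.X ^ 2 + Polynomial.C (a : ℚ) * Polynomial.X - Polynomial.C (m : ℚ), ?_, ?_⟩
      · intro h
        have h2 := congrArg (fun p => Polynomial.coeff p 2) h
        simp only [Polynomial.coeff_sub, Polynomial.coeff_add, Polynomial.coeff_X_pow,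
          Polynomial.coeff_C_mul, Polynomial.coeff_X, Polynomial.coeff_C, Polynomial.coeff_zero] at h2
        norm_num at h2
      · simp
        linarith
    exact h1.add isAlgebraic_one
  have hirr : Irrational (x + 1) := by
    have := hx.add_intCast 1
    simpa using this
  obtain ⟨n0, hn0⟩ := Pool.Agent.H949R2.ridout_gap b hb (x + 1) (floor_one hx0 hx1) halg hirr ε hε
  obtain ⟨L, hL⟩ : ∃ L : ℕ, |a| ≤ (b : ℤ) ^ L := by
    obtain ⟨L, hL⟩ := pow_unbounded_of_one_lt |a| (by exact_mod_cast (by omega : 1 < b) : (1 : ℤ) < b)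
    exact ⟨L, hL.le⟩
  set c := Pool.Agent.H949R2.cc b (x + 1) with hc
  have hc0 : c 0 = 1 := cc_zero
  have hz1 : ∀ k, c k ≠ 0 → k = 0 ∨ dg b x k ≠ 0 := by
    intro k hk
    rcases Nat.eq_zero_or_pos k with h | h
    · exact Or.inl h
    · right
      obtain ⟨l, rfl⟩ := Nat.exists_eq_succ_of_ne_zero (by omega : k ≠ 0)
      rw [hc, cc_succ hb hx0 l] at hk
      exact hk
  have hz2 : ∀ k, 1 ≤ k → c k = 0 → dg b x k = 0 := by
    intro k hk h
    obtain ⟨l, rfl⟩ := Nat.exists_eq_succ_of_ne_zero (by omega : k ≠ 0)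
    rw [hc, cc_succ hb hx0 l] at h
    exact h
  have hcount : ∀ N, ((range (N + 1)).filter (fun k => Pool.Agent.H949R2.r c (2 - 1) k ≠ 0)).card
      ≤ zc b x N + 1 := by
    intro N
    have h1 : (range (N + 1)).filter (fun k => Pool.Agent.H949R2.r c (2 - 1) k ≠ 0)
        ⊆ insert 0 ((range (N + 1)).filter (fun k => dg b x k ≠ 0)) := by
      intro k hk
      simp only [mem_filter, mem_insert] at *
      have h2 : c k ≠ 0 := by
        have := hk.2
        rw [show (2 : ℕ) - 1 = 1 from rfl, r_one] at this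
        exact this
      rcases hz1 k h2 with h | h
      · exact Or.inl h
      · exact Or.inr ⟨hk.1, h⟩
    have h3 : ((range (N + 1)).filter (fun k => dg b x k ≠ 0)).card = zc b x N := by
      unfold zc
      rw [card_filter]
      apply sum_congr rfl
      intro i _
      unfold nz
      by_cases h : dg b x i = 0
      · simp [h]
      · simp [h]
    calc _ ≤ (insert 0 ((range (N + 1)).filter (fun k => dg b x k ≠ 0))).card := card_le_card h1
      _ ≤ ((range (N + 1)).filter (fun k => dg b x k ≠ 0)).card + 1 := card_insert_le _ _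
      _ = _ := by rw [h3]
  refine ⟨ε + (L + 1) + ((1 + ε) * n0 + 2), by positivity, ?_⟩
  intro N
  -- good positions
  have hgood := Pool.Agent.H949R2.card_zero_le b c hc0 (co a m) 2 (by norm_num)
    (by simp [co]) ε hε n0 hn0 N L (by
      intro R _ hfree
      rw [T_eq949 hb hx0 hx1 a m R]
      apply T_nonneg_of_gap hb hx0 hx1 hx a m hroot R L hL
      intro k hk1 hk2
      have := hfree k hk1 hk2
      rw [show (2 : ℕ) - 1 = 1 from rfl, r_one] at this
      exact hz2 k (by omega) this)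
  -- bad positions
  set G := (range (N + 1)).filter (fun R => R + L ≤ N ∧
    (∀ k, R < k → k ≤ R + L → Pool.Agent.H949R2.r c (2 - 1) k = 0) ∧
      Pool.Agent.H949R2.T b c (co a m) 2 R ≤ 0) with hG
  set D := (range (N + 1)).filter (fun k => dg b x k ≠ 0) with hD
  have hDc : D.card = zc b x N := by
    rw [hD]
    unfold zc
    rw [card_filter]
    apply sum_congr rfl
    intro i _
    unfold nz
    by_cases h : dg b x i = 0
    · simp [h]
    · simp [h]
  have hsub : (range (N + 1)).filter (fun n => T b x a m n ≤ 0)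
      ⊆ G ∪ (Icc (N + 1 - L) N) ∪ (D ×ˢ range (L + 1)).image (fun p => p.1 - p.2) := by
    intro n hn
    simp only [mem_filter, mem_range] at hn
    simp only [mem_union]
    by_cases h1 : n + L ≤ N
    · by_cases h2 : ∀ k, n < k → k ≤ n + L → dg b x k = 0
      · left; left
        rw [hG]
        simp only [mem_filter, mem_range]
        refine ⟨hn.1, h1, ?_, ?_⟩
        · intro k hk1 hk2
          rw [show (2 : ℕ) - 1 = 1 from rfl, r_one]
          by_contra hne
          rcases hz1 k hne with h | h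
          · omega
          · exact h (h2 k hk1 hk2)
        · rw [T_eq949 hb hx0 hx1 a m n]
          exact hn.2
      · right
        push Not at h2
        obtain ⟨k, hk1, hk2, hk3⟩ := h2
        simp only [mem_image, mem_product, mem_range]
        refine ⟨(k, k - n), ⟨?_, by omega⟩, by omega⟩
        rw [hD]
        simp only [mem_filter, mem_range]
        exact ⟨by omega, hk3⟩
    · left; right
      simp only [mem_Icc]
      omega
  have hcard : tz b x a m N ≤ G.card + L + zc b x N * (L + 1) := by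
    unfold tz
    calc _ ≤ (G ∪ (Icc (N + 1 - L) N) ∪ (D ×ˢ range (L + 1)).image (fun p => p.1 - p.2)).card :=
          card_le_card hsub
      _ ≤ (G ∪ (Icc (N + 1 - L) N)).card + ((D ×ˢ range (L + 1)).image (fun p => p.1 - p.2)).card :=
          card_union_le _ _
      _ ≤ (G.card + (Icc (N + 1 - L) N).card) + (D ×ˢ range (L + 1)).card :=
          Nat.add_le_add (card_union_le _ _) card_image_le
      _ ≤ G.card + L + zc b x N * (L + 1) := by
          rw [card_product, card_range, hDc, Nat.card_Icc]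
          omega
  have hcardR : (tz b x a m N : ℝ) ≤ G.card + L + zc b x N * (L + 1) := by exact_mod_cast hcard
  have hcountR : (((range (N + 1)).filter
      (fun k => Pool.Agent.H949R2.r c (2 - 1) k ≠ 0)).card : ℝ) ≤ zc b x N + 1 := by
    exact_mod_cast hcount N
  have h5 : ((1 + ε) * n0 + 2) * (((range (N + 1)).filter
      (fun k => Pool.Agent.H949R2.r c (2 - 1) k ≠ 0)).card : ℝ)
      ≤ ((1 + ε) * n0 + 2) * (zc b x N + 1) :=
    mul_le_mul_of_nonneg_left hcountR (by positivity)
  have hz0 : (0 : ℝ) ≤ zc b x N := Nat.cast_nonneg _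
  have hL0 : (0 : ℝ) ≤ L := Nat.cast_nonneg _
  nlinarith [mul_nonneg hε.le hz0]

end Pool.Agent.H990R2.Dig
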